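import Pool.Agent.Lib.MP_361057_co.Mg.G001

/-! Fan lemma (Menger's theorem by lifting). -/

open Finset Classical

namespace OddImm

universe u

variable {V : Type u}

theorem Fan_countP_cons (a : V) (A : Multiset V) (S : Finset V) :
    (a ::ₘ A).countP (fun x => x ∈ S) = A.countP (fun x => x ∈ S) + if a ∈ S then 1 else 0 := by
  simp [Multiset.countP_cons]

/-- Modularity of the counting function. -/
theorem Fan_modular (A : Multiset V) (S T : Finset V) :
    A.countP (fun x => x ∈ S ∩ T) + A.countP (fun x => x ∈ S ∪ T)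
      = A.countP (fun x => x ∈ S) + A.countP (fun x => x ∈ T) := by
  induction A using Multiset.induction_on with
  | empty => simp
  | cons a A ih =>
    rw [Fan_countP_cons, Fan_countP_cons, Fan_countP_cons, Fan_countP_cons]
    by_cases h1 : a ∈ S <;> by_cases h2 : a ∈ T <;> simp [h1, h2] <;> simp at ih <;> omega

theorem Fan_countP_eq_sum (A : Multiset V) (S : Finset V) :
    A.countP (fun x => x ∈ S) = ∑ v ∈ S, A.count v := by
  induction A using Multiset.induction_on with
  | empty => simp
  | cons a A ih =>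
    rw [Fan_countP_cons, ih]
    simp only [Multiset.count_cons, Finset.sum_add_distrib]
    congr 1
    simp

theorem Fan_countP_insert (A : Multiset V) (S : Finset V) (v : V) (hv : v ∉ S) :
    A.countP (fun x => x ∈ insert v S) = A.countP (fun x => x ∈ S) + A.count v := by
  rw [Fan_countP_eq_sum, Fan_countP_eq_sum, Finset.sum_insert hv, add_comm]

/-- In the situation where no pair can be deleted there is a tight vertex. -/
theorem Fan_tight_vertex (b : V) (I : Multiset (Sym2 V)) (hI : Loopless I) (A : Multiset V)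
    (hcut : ∀ S : Finset V, b ∉ S → A.countP (fun a => a ∈ S) ≤ cut I S)
    (hne : I ≠ 0)
    (hcr : ∀ e ∈ I, ∃ S : Finset V, b ∉ S ∧ Cr S e ∧ A.countP (fun a => a ∈ S) = cut I S) :
    ∃ v, v ≠ b ∧ 1 ≤ dg I v ∧ A.count v = dg I v := by
  -- positive tight sets
  have hex : ∃ n, ∃ S : Finset V, S.card = n ∧ b ∉ S ∧ A.countP (fun a => a ∈ S) = cut I S ∧
      1 ≤ cut I S := by
    obtain ⟨e, he⟩ := Multiset.exists_mem_of_ne_zero hne
    obtain ⟨S, hbS, hcrS, hS⟩ := hcr e he
    refine ⟨S.card, S, rfl, hbS, hS, ?_⟩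
    unfold cut
    exact Multiset.countP_pos.2 ⟨e, he, hcrS⟩
  obtain ⟨S, hcard, hbS, hS, hpos⟩ := Nat.find_spec hex
  have hmin : ∀ T : Finset V, b ∉ T → A.countP (fun a => a ∈ T) = cut I T → 1 ≤ cut I T →
      S.card ≤ T.card := by
    intro T h1 h2 h3
    rw [hcard]
    exact Nat.find_min' hex ⟨T, rfl, h1, h2, h3⟩
  -- no pair of `I` lies inside `S`
  have hno : I.countP (Ins S) = 0 := by
    rw [Multiset.countP_eq_zero]
    intro e he hins
    obtain ⟨T, hbT, hcrT, hT⟩ := hcr e he
    have hbi : b ∉ S ∩ T := fun h => hbS (Finset.mem_inter.1 h).1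
    have hbu : b ∉ S ∪ T := by
      intro h
      rcases Finset.mem_union.1 h with h | h
      · exact hbS h
      · exact hbT h
    have h1 := cut_submod I S T
    have h2 := Fan_modular A S T
    have h3 := hcut _ hbi
    have h4 := hcut _ hbu
    have htight : A.countP (fun a => a ∈ S ∩ T) = cut I (S ∩ T) := by omega
    obtain ⟨⟨x, hxe, hxT⟩, ⟨y, hye, hyT⟩⟩ := hcrT
    have hcrI : Cr (S ∩ T) e := by
      refine ⟨⟨x, hxe, Finset.mem_inter.2 ⟨hins x hxe, hxT⟩⟩, ⟨y, hye, ?_⟩⟩
      intro h
      exact hyT (Finset.mem_inter.1 h).2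
    have hpos' : 1 ≤ cut I (S ∩ T) := by
      unfold cut
      exact Multiset.countP_pos.2 ⟨e, he, hcrI⟩
    have h5 := hmin _ hbi htight hpos'
    have h6 : (S ∩ T).card < S.card := by
      apply Finset.card_lt_card
      refine ⟨Finset.inter_subset_left, ?_⟩
      intro h
      exact hyT (Finset.mem_inter.1 (h (hins y hye))).2
    omega
  have hsum := sum_dg hI S
  rw [hno] at hsum
  have hcount : ∑ v ∈ S, A.count v = ∑ v ∈ S, dg I v := by
    rw [hsum, ← Fan_countP_eq_sum, hS]
    simp
  have hle : ∀ v ∈ S, A.count v ≤ dg I v := by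
    intro v hv
    have h1 : b ∉ ({v} : Finset V) := by
      intro h
      rw [Finset.mem_singleton] at h
      exact hbS (h ▸ hv)
    have h2 := hcut {v} h1
    rw [cut_singleton hI, Fan_countP_eq_sum] at h2
    simpa using h2
  have heq := (Finset.sum_eq_sum_iff_of_le hle).1 hcount
  have hposv : ∃ v ∈ S, 1 ≤ dg I v := by
    by_contra hcon
    push Not at hcon
    have : ∑ v ∈ S, dg I v = 0 := Finset.sum_eq_zero (fun v hv => by have := hcon v hv; omega)
    omega
  obtain ⟨v, hvS, hv⟩ := hposv
  refine ⟨v, ?_, hv, heq v hvS⟩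
  intro h
  exact hbS (h ▸ hvS)

theorem fan {R : Multiset (Sym2 V) → Prop} (hR : LiftClosed R) (b : V)
    (I : Multiset (Sym2 V)) (hI : Loopless I) (A : Multiset V) (hb : b ∉ A)
    (hcut : ∀ S : Finset V, b ∉ S → A.countP (fun a => a ∈ S) ≤ cut I S)
    (G₀ : Multiset (Sym2 V)) (h : R (I + G₀)) :
    R (A.map (fun a => s(b, a)) + G₀) := by
  induction hn : I.card using Nat.strong_induction_on generalizing I A G₀ with
  | _ n ih =>
  subst hn
  by_cases h0 : I = 0
  · subst h0
    have hA : A = 0 := by
      by_contra hA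
      obtain ⟨a, ha⟩ := Multiset.exists_mem_of_ne_zero hA
      have h1 : b ∉ ({a} : Finset V) := by
        intro h
        rw [Finset.mem_singleton] at h
        exact hb (h ▸ ha)
      have h2 := hcut {a} h1
      rw [cut_zero] at h2
      have h3 : 0 < A.countP (fun x => x ∈ ({a} : Finset V)) :=
        Multiset.countP_pos.2 ⟨a, ha, by simp⟩
      omega
    subst hA
    simpa using h
  by_cases hdel : ∃ e ∈ I, ∀ S : Finset V, b ∉ S →
      A.countP (fun a => a ∈ S) ≤ cut (I.erase e) S
  · obtain ⟨e, he, hcut'⟩ := hdel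
    refine ih (I.erase e).card ?_ (I.erase e) (hI.mono (Multiset.erase_le _ _)) A hb hcut' G₀
      ?_ rfl
    · exact Multiset.card_erase_lt_of_mem he
    · exact hR.mono (Multiset.add_le_add_right (Multiset.erase_le _ _)) h
  · have hcr : ∀ e ∈ I, ∃ S : Finset V, b ∉ S ∧ Cr S e ∧
        A.countP (fun a => a ∈ S) = cut I S := by
      intro e he
      by_contra hcon
      apply hdel
      refine ⟨e, he, ?_⟩
      intro S hbS
      have h1 := hcut S hbS
      have h2 : cut I S = cut (I.erase e) S + if Cr S e then 1 else 0 := by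
        rw [← cut_cons, Multiset.cons_erase he]
      by_cases h3 : Cr S e
      · rw [if_pos h3] at h2
        have h4 : A.countP (fun a => a ∈ S) ≠ cut I S := fun h4 => hcon ⟨S, hbS, h3, h4⟩
        omega
      · rw [if_neg h3] at h2
        omega
    obtain ⟨v, hvb, hdv, hcv⟩ := Fan_tight_vertex b I hI A hcut h0 hcr
    have hvA : v ∈ A := by
      rw [← Multiset.count_pos]
      omega
    obtain ⟨e, he, hve⟩ : ∃ e ∈ I, v ∈ e := by
      have : 0 < I.countP (fun e => v ∈ e) := hdv
      obtain ⟨e, he, hve⟩ := Multiset.countP_pos.1 this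
      exact ⟨e, he, hve⟩
    obtain ⟨c, rfl⟩ := Sym2.mem_iff_exists.1 hve
    have hvc : v ≠ c := by
      have := hI _ he
      simpa using this
    have hIe : Loopless (I.erase s(v, c)) := hI.mono (Multiset.erase_le _ _)
    have hIeq : s(v, c) ::ₘ I.erase s(v, c) = I := Multiset.cons_erase he
    have hAeq : v ::ₘ A.erase v = A := Multiset.cons_erase hvA
    have hbA' : b ∉ A.erase v := fun h => hb (Multiset.mem_of_mem_erase h)
    have hcutI : ∀ S : Finset V, cut I S = cut (I.erase s(v, c)) S +
        if (v ∈ S ∧ c ∉ S) ∨ (v ∉ S ∧ c ∈ S) then 1 else 0 := by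
      intro S
      conv_lhs => rw [← hIeq]
      rw [cut_cons]
      simp only [cr_mk]
    have hcountA : ∀ S : Finset V, A.countP (fun x => x ∈ S) =
        (A.erase v).countP (fun x => x ∈ S) + if v ∈ S then 1 else 0 := by
      intro S
      conv_lhs => rw [← hAeq]
      rw [Fan_countP_cons]
    have hRe : R (I.erase s(v, c) + (s(v, c) ::ₘ G₀)) := by
      rw [Multiset.add_cons, ← Multiset.cons_add, hIeq]
      exact h
    have hcardlt : (I.erase s(v, c)).card < I.card := Multiset.card_erase_lt_of_mem he
    by_cases hcb : c = b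
    · subst hcb
      have h1 := ih _ hcardlt (I.erase s(v, c)) hIe (A.erase v) hbA' (by
        intro S hS
        have h1 := hcut S hS
        rw [hcutI S, hcountA S] at h1
        by_cases hvS : v ∈ S <;> simp [hvS, hS] at h1 <;> omega) (s(v, c) ::ₘ G₀) hRe rfl
      rw [Multiset.add_cons, ← Multiset.cons_add] at h1
      have h2 : A.map (fun a => s(c, a)) = s(v, c) ::ₘ (A.erase v).map (fun a => s(c, a)) := by
        conv_lhs => rw [← hAeq]
        rw [Multiset.map_cons, Sym2.eq_swap]
      rw [h2]
      exact h1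
    · have h1 := ih _ hcardlt (I.erase s(v, c)) hIe (c ::ₘ A.erase v) (by
        intro h
        rcases Multiset.mem_cons.1 h with h | h
        · exact hcb h.symm
        · exact hbA' h) (by
        intro S hS
        have h1 := hcut S hS
        rw [hcutI S, hcountA S] at h1
        rw [Fan_countP_cons]
        by_cases hvS : v ∈ S
        · by_cases hcS : c ∈ S <;> simp [hvS, hcS] at h1 ⊢ <;> omega
        · by_cases hcS : c ∈ S
          · have hbi : b ∉ insert v S := by
              intro h
              rcases Finset.mem_insert.1 h with h | h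
              · exact hvb h.symm
              · exact hS h
            have h2 := hcut (insert v S) hbi
            have h3 := cut_insert hI hvS
            have h4 : 0 < I.countP (fun e => v ∈ e ∧ ∃ w ∈ e, w ∈ S) :=
              Multiset.countP_pos.2 ⟨s(v, c), he, by simp, c, by simp, hcS⟩
            rw [Fan_countP_insert A S v hvS] at h2
            have h5 := hcutI S
            have h6 := hcountA S
            simp [hvS, hcS] at h5 h6 ⊢
            omega
          · simp [hvS, hcS] at h1 ⊢
            omega) (s(v, c) ::ₘ G₀) hRe rfl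
      have h2 : A.map (fun a => s(b, a)) + G₀ =
          s(b, v) ::ₘ ((A.erase v).map (fun a => s(b, a)) + G₀) := by
        conv_lhs => rw [← hAeq]
        rw [Multiset.map_cons, Multiset.cons_add]
      rw [h2]
      apply hR.lift (b := c) (Ne.symm hvb)
      rw [Multiset.map_cons, Multiset.cons_add, Multiset.add_cons, Sym2.eq_swap (a := v)] at h1
      exact h1

end OddImm
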