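import Pool.Agent.Lib.MP_361057_co.Mg.G005
import Pool.Agent.Lib.MP_361057_co.Mg.G004
import Pool.Agent.Lib.MP_361057_co.Mg.G003
import Pool.Agent.Lib.MP_361057_co.Mg.G007

/-! Assembly. -/

open Finset Classical

namespace OddImm

universe u

theorem main {V : Type u} [Fintype V] (G : SimpleGraph V) (t : ℕ) (ht : 0 < t)
    (f : V → Fin (992 * t)) (hf : IsOddomorphism G f) : HasCliqueImmersion G t := by
  have hR : LiftClosed (Real G) := real_closed G
  haveI : Nonempty (Fin (992 * t)) := ⟨⟨0, by omega⟩⟩
  obtain ⟨O₀, F₀, h₀⟩ := exists_str G f hf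
  rcases Nat.lt_or_ge t 2 with h1 | h2
  · -- `t = 1`
    have ht1 : t = 1 := by omega
    subst ht1
    obtain ⟨v, -⟩ : (O₀ ⟨0, by omega⟩).Nonempty := by
      rw [← Finset.card_pos]
      exact (h₀.odd _).pos
    refine ⟨fun _ => v, fun a b _ => Subsingleton.elim a b, fun i j h => ?_, ?_, ?_⟩
    · exact absurd h (by omega)
    · intro i j h
      exact absurd h (by omega)
    · intro i j h
      exact absurd h (by omega)
  · have hn : 2 ≤ Fintype.card (Fin (992 * t)) := by simp; omega
    obtain ⟨O, F, hO, hstar⟩ := exists_star_str hR hn h₀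
    obtain ⟨A, Cl, I, Gr, Pr, hCS, hA, he⟩ :=
      exists_CS hR hO (124 * t) (by simp; omega) hstar
    have he' : 31 * t * A.card ≤ (ed Gr).card := by
      refine le_trans ?_ he
      exact Nat.mul_le_mul_right _ (by omega)
    have key : ∃ P : Finset V, P.card = t ∧ Real G (prs P) := by
      rcases stepI hR (κ := 124 * t) (α := 31 * t) (t := t) (by omega) (by omega) (by omega)
        hCS hA he' with h | ⟨W, H, hW, hin, hdeg, hH⟩
      · exact h
      · refine plain hR h2 hW hin (fun x hx => ?_) hH
        refine le_trans ?_ (hdeg x hx)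
        omega
    obtain ⟨P, hP, hPr⟩ := key
    rw [← hP]
    exact clique_of_real G P hPr

end OddImm
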