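import Mathlib

/-!
The definitions used in the statement of the result of MP_361057_co.
-/

open Finset Classical

namespace OddImm

universe u

variable {V : Type u}

/-- `v` is `f`-odd: for every colour `s ≠ f v` the number of neighbours of `v` of colour `s`
is odd. -/
def OddVertex (G : SimpleGraph V) {ι : Type} (f : V → ι) (v : V) : Prop :=
  ∀ s, s ≠ f v → Odd {w | G.Adj v w ∧ f w = s}.ncard

/-- `v` is `f`-even: for every colour `s ≠ f v` the number of neighbours of `v` of colour `s`
is even. -/
def EvenVertex (G : SimpleGraph V) {ι : Type} (f : V → ι) (v : V) : Prop :=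
  ∀ s, s ≠ f v → Even {w | G.Adj v w ∧ f w = s}.ncard

/-- `f` is an oddomorphism from `G` to the complete graph on the set of colours `ι`. -/
structure IsOddomorphism (G : SimpleGraph V) {ι : Type} (f : V → ι) : Prop where
  proper : ∀ v w, G.Adj v w → f v ≠ f w
  odd_or_even : ∀ v, OddVertex G f v ∨ EvenVertex G f v
  odd_class : ∀ s, Odd {v | f v = s ∧ OddVertex G f v}.ncard

/-- `G` contains the complete graph on `t` vertices as an immersion: an injective choice of
`t` branch vertices and pairwise edge-disjoint paths joining any two of them. -/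
def HasCliqueImmersion (G : SimpleGraph V) (t : ℕ) : Prop :=
  ∃ φ : Fin t → V, Function.Injective φ ∧
    ∃ P : ∀ i j : Fin t, i < j → G.Walk (φ i) (φ j),
      (∀ i j (h : i < j), (P i j h).IsPath) ∧
      ∀ i j (h : i < j) i' j' (h' : i' < j'), (i, j) ≠ (i', j') →
        List.Disjoint (P i j h).edges (P i' j' h').edges

end OddImm
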